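import Pool.Agent.Helper93.FZ.St

/-!
# FZ, VER: the vertex inequality
-/

set_option autoImplicit false

namespace Pool.Agent.Helper9.FZ

open Finset
open Pool.Agent.Helper93.FZ

private theorem sum_prod_lower {n : ℕ} (f g : Fin n → ℝ) (hf : ∀ i, f i ≤ 1) (hg : ∀ i, g i ≤ 1) :
    ∑ i, f i + ∑ i, g i - n ≤ ∑ i, f i * g i := by
  have h : ∑ i, (f i + g i - 1) ≤ ∑ i, f i * g i := by
    apply Finset.sum_le_sum
    intro i _
    nlinarith [mul_nonneg (sub_nonneg.2 (hf i)) (sub_nonneg.2 (hg i))]
  have h2 : ∑ i : Fin n, (f i + g i - 1) = ∑ i, f i + ∑ i, g i - n := by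
    rw [Finset.sum_sub_distrib, Finset.sum_add_distrib]
    simp
  linarith

theorem hVER : StVER := by
  intro n k x A B C X Y Z u v w hW hS _ hB hX hY hZ r
  obtain ⟨hB1, hB2, hB3⟩ := hB
  -- the multiplied equation
  have hmain : ∑ c, A r c * (∑ s, B c s * C s r * (X r c + Y c s + Z s r)) = n - u r := by
    rw [← hW.rA r]
    apply Finset.sum_congr rfl
    intro c _
    rw [hS.eA r c, mul_one]
  have hsplit : ∑ c, A r c * (∑ s, B c s * C s r * (X r c + Y c s + Z s r))
      = (∑ c, (A r c * X r c) * (∑ s, B c s * C s r))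
        + (∑ c, ∑ s, (B c s * Y c s) * (A r c * C s r))
        + (∑ s, (C s r * Z s r) * (∑ c, A r c * B c s)) := by
    have h3 : ∑ s, (C s r * Z s r) * (∑ c, A r c * B c s)
        = ∑ c, ∑ s, (C s r * Z s r) * (A r c * B c s) := by
      rw [Finset.sum_comm]
      apply Finset.sum_congr rfl
      intro s _
      rw [Finset.mul_sum]
    rw [h3, ← Finset.sum_add_distrib, ← Finset.sum_add_distrib]
    apply Finset.sum_congr rfl
    intro c _
    rw [Finset.mul_sum, Finset.mul_sum, ← Finset.sum_add_distrib, ← Finset.sum_add_distrib]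
    apply Finset.sum_congr rfl
    intro s _
    ring
  have hTX : (n - u r - k) * (∑ c, A r c * X r c) ≤ ∑ c, (A r c * X r c) * (∑ s, B c s * C s r) := by
    rw [Finset.mul_sum]
    apply Finset.sum_le_sum
    intro c _
    have h1 := sum_prod_lower (fun s => B c s) (fun s => C s r) (fun s => hW.B1 c s)
      (fun s => hW.C1 s r)
    have h2 := hW.cB c
    have h3 := hW.rC r
    have h4 := hW.vk c
    have h5 : (n : ℝ) - u r - k ≤ ∑ s, B c s * C s r := by
      linarith
    have h6 : 0 ≤ A r c * X r c := mul_nonneg (hW.A0 r c) (hX r c)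
    nlinarith [mul_le_mul_of_nonneg_left h5 h6]
  have hTZ : (n - u r - k) * (∑ s, C s r * Z s r) ≤ ∑ s, (C s r * Z s r) * (∑ c, A r c * B c s) := by
    rw [Finset.mul_sum]
    apply Finset.sum_le_sum
    intro s _
    have h1 := sum_prod_lower (fun c => A r c) (fun c => B c s) (fun c => hW.A1 r c)
      (fun c => hW.B1 c s)
    have h2 := hW.rA r
    have h3 := hW.sB s
    have h4 := hW.wk s
    have h5 : (n : ℝ) - u r - k ≤ ∑ c, A r c * B c s := by
      linarith
    have h6 : 0 ≤ C s r * Z s r := mul_nonneg (hW.C0 s r) (hZ s r)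
    nlinarith [mul_le_mul_of_nonneg_left h5 h6]
  have hTY : (∑ c, ∑ s, B c s * Y c s) - 2 * u r * x
      ≤ ∑ c, ∑ s, (B c s * Y c s) * (A r c * C s r) := by
    have h1 : ∑ c, ∑ s, ((B c s * Y c s) * (A r c + C s r - 1))
        ≤ ∑ c, ∑ s, (B c s * Y c s) * (A r c * C s r) := by
      apply Finset.sum_le_sum
      intro c _
      apply Finset.sum_le_sum
      intro s _
      apply mul_le_mul_of_nonneg_left _ (mul_nonneg (hW.B0 c s) (hY c s))
      nlinarith [mul_nonneg (sub_nonneg.2 (hW.A1 r c)) (sub_nonneg.2 (hW.C1 s r))]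
    have h2 : ∑ c, ∑ s, ((B c s * Y c s) * (A r c + C s r - 1))
        = (∑ c, ∑ s, B c s * Y c s) - (∑ c, (1 - A r c) * (∑ s, B c s * Y c s))
          - (∑ s, (1 - C s r) * (∑ c, B c s * Y c s)) := by
      have h3 : ∑ s, (1 - C s r) * (∑ c, B c s * Y c s)
          = ∑ c, ∑ s, (1 - C s r) * (B c s * Y c s) := by
        rw [Finset.sum_comm]
        apply Finset.sum_congr rfl
        intro s _
        rw [Finset.mul_sum]
      rw [h3, ← Finset.sum_sub_distrib, ← Finset.sum_sub_distrib]
      apply Finset.sum_congr rfl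
      intro c _
      rw [Finset.mul_sum, ← Finset.sum_sub_distrib, ← Finset.sum_sub_distrib]
      apply Finset.sum_congr rfl
      intro s _
      ring
    have h4 : ∑ c, (1 - A r c) * (∑ s, B c s * Y c s) ≤ u r * x := by
      have h5 : ∑ c, (1 - A r c) * (∑ s, B c s * Y c s) ≤ ∑ c, (1 - A r c) * x := by
        apply Finset.sum_le_sum
        intro c _
        exact mul_le_mul_of_nonneg_left (hB2 c) (sub_nonneg.2 (hW.A1 r c))
      have h6 : ∑ c, (1 - A r c) * x = u r * x := by
        rw [← Finset.sum_mul, Finset.sum_sub_distrib, hW.rA r]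
        simp
      linarith
    have h7 : ∑ s, (1 - C s r) * (∑ c, B c s * Y c s) ≤ u r * x := by
      have h5 : ∑ s, (1 - C s r) * (∑ c, B c s * Y c s) ≤ ∑ s, (1 - C s r) * x := by
        apply Finset.sum_le_sum
        intro s _
        apply mul_le_mul_of_nonneg_left _ (sub_nonneg.2 (hW.C1 s r))
        rw [← hS.gS s]
        exact hB3 s
      have h6 : ∑ s, (1 - C s r) * x = u r * x := by
        rw [← Finset.sum_mul, Finset.sum_sub_distrib, hW.rC r]
        simp
      linarith
    linarith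
  have hg := hS.gR r
  rw [← hg] at hTZ
  linarith

end Pool.Agent.Helper9.FZ
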